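import Pool.Agent.AT2.Stmts
import Pool.Agent.Helper75_PP.Fr
import Pool.Agent.Helper9_PP.Add
import Pool.Agent.Helper46_PP.Alg
import Pool.Agent.Helper94_PP.Nch
import Pool.Agent.Helper20_PP.Ibr
import Pool.Agent.Helper20_PP.Nls
import Pool.Agent.Helper74_PP.Brt

/-!
# Squad AT2, row FRS: the theorem of Fong and Reynolds, summed over all blocks of a normal subgroup
-/

open scoped BigOperators

set_option linter.unusedSectionVars false

noncomputable section

namespace Pool.Agent.PP.T2.H83

open Pool.Agent.Helper51_AWC Pool.Agent.Helper79_WRA Pool.Agent.PP Pool.Agent.PP.KF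
open Pool.Agent.PP.K9 Pool.Agent.PP.K9.H97 Pool.Agent.PP.H75 Pool.Agent.PP.T3

section fin

variable {F H : Type} [Field F] [Group H] [Finite H]

/-- a block under a sum of two orthogonal idempotents is under one of them -/
theorem blk_split {b e₁ e₂ : H → F} (hb : IsBlk b) (h1 : IsIdem e₁)
    (hb12 : mulF (e₁ + e₂) b = b) : mulF e₁ b = b ∨ mulF e₂ b = b := by
  rcases hb.2.2 e₁ h1 with h | h
  · left
    rw [H46.mulF_comm h1.1, h]
  · right
    have h3 : mulF e₁ b = 0 := by rw [H46.mulF_comm h1.1, h]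
    have h4 : mulF (e₁ + e₂) b = mulF e₁ b + mulF e₂ b := by
      apply ma_injective
      rw [ma_mul, ma_add, ma_add, ma_mul, ma_mul, add_mul]
    rw [h4, h3, zero_add] at hb12
    exact hb12

/-- a finite group has only finitely many blocks -/
theorem blk_finite : {b : H → F | IsBlk b}.Finite := by
  have key : ∀ e : H → F, IsIdem e → {b : H → F | IsBlk b ∧ mulF e b = b}.Finite := by
    refine H46.idem_induction _ ?_ ?_ ?_
    · refine Set.Finite.subset Set.finite_empty ?_
      rintro b ⟨hb, h⟩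
      exact hb.2.1 (by rw [← h, mulF_zero_left])
    · intro e he
      refine Set.Finite.subset (Set.finite_singleton e) ?_
      rintro b ⟨hb, h⟩
      rcases he.2.2 b hb.1 with h1 | h1
      · rw [Set.mem_singleton_iff, ← h, h1]
      · exact absurd (by rw [← h, h1]) hb.2.1
    · intro e₁ e₂ h1 h2 _ p1 p2
      refine Set.Finite.subset (p1.union p2) ?_
      rintro b ⟨hb, h⟩
      rcases blk_split hb h1 h with h3 | h3
      · exact Or.inl ⟨hb, h3⟩
      · exact Or.inr ⟨hb, h3⟩
  refine (key (dl F 1) H46.isIdem_one).subset ?_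
  intro b hb
  exact ⟨hb, H46.one_mulF b⟩

end fin

section main

variable {F A : Type} [Field F] [Group A] [Finite A] {C : Subgroup A}

theorem bx_finite (C : Subgroup A) : {b : A → F | Bx C b}.Finite := by
  have h1 : ((fun (b : A → F) => fun t : C => b t) '' {b : A → F | Bx C b}).Finite := by
    refine blk_finite.subset ?_
    rintro _ ⟨b, hb, rfl⟩
    exact hb.blk
  refine Set.Finite.of_finite_image h1 ?_
  intro b hb b' hb' h
  exact eq_of_res hb.supp hb'.supp h

/-- under an idempotent of the subgroup which does not annihilate `e` there is a block with the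
same property -/
theorem exists_blk {e E : A → F} (hE : ∀ x, x ∉ C → E x = 0)
    (hEi : IsIdem (fun t : C => E t)) (hne : mulF e E ≠ 0) :
    ∃ b : A → F, Bx C b ∧ mulF E b = b ∧ mulF e b ≠ 0 := by
  have key : ∀ f : C → F, IsIdem f → mulF e (H75.ext0 C f) ≠ 0 →
      ∃ b : A → F, Bx C b ∧ mulF (H75.ext0 C f) b = b ∧ mulF e b ≠ 0 := by
    refine H46.idem_induction _ ?_ ?_ ?_
    · intro h
      exfalso
      apply h
      have : H75.ext0 C (0 : C → F) = 0 := by
        funext x
        by_cases hx : x ∈ C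
        · rw [H75.ext0, dif_pos hx]
          rfl
        · rw [H75.ext0, dif_neg hx]
          rfl
      rw [this, mulF_zero_right]
    · intro b hb h
      refine ⟨H75.ext0 C b, ⟨ext0_supp C b, ?_⟩, ?_, h⟩
      · have : (fun t : C => H75.ext0 C b t) = b := funext (ext0_apply C b)
        rw [this]
        exact hb
      · rw [← ext0_mulF, hb.1.2]
    · intro f₁ f₂ h1 h2 h12 p1 p2 h
      have hadd : H75.ext0 C (f₁ + f₂) = H75.ext0 C f₁ + H75.ext0 C f₂ := by
        funext x
        rw [Pi.add_apply]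
        by_cases hx : x ∈ C
        · rw [H75.ext0, H75.ext0, H75.ext0, dif_pos hx, dif_pos hx, dif_pos hx]
          rfl
        · rw [H75.ext0, H75.ext0, H75.ext0, dif_neg hx, dif_neg hx, dif_neg hx, add_zero]
      have h21 : mulF f₂ f₁ = 0 := by rw [← H46.mulF_comm h1.1, h12]
      have hz : H75.ext0 C (0 : C → F) = 0 := by
        funext x
        by_cases hx : x ∈ C
        · rw [H75.ext0, dif_pos hx]
          rfl
        · rw [H75.ext0, dif_neg hx]
          rfl
      have hd : ∀ b : A → F, mulF (H75.ext0 C (f₁ + f₂)) b =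
          mulF (H75.ext0 C f₁) b + mulF (H75.ext0 C f₂) b := by
        intro b
        rw [hadd]
        apply ma_injective
        rw [ma_mul, ma_add, ma_add, ma_mul, ma_mul, add_mul]
      by_cases h3 : mulF e (H75.ext0 C f₁) = 0
      · have h4 : mulF e (H75.ext0 C f₂) ≠ 0 := by
          intro h4
          apply h
          rw [hadd, H46.mulF_add, h3, h4, add_zero]
        obtain ⟨b, hb1, hb2, hb3⟩ := p2 h4
        refine ⟨b, hb1, ?_, hb3⟩
        have h5 : mulF (H75.ext0 C f₁) b = 0 := by
          rw [← hb2, ← mulF_assoc, ← ext0_mulF, h12, hz, mulF_zero_left]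
        rw [hd, h5, hb2, zero_add]
      · obtain ⟨b, hb1, hb2, hb3⟩ := p1 h3
        refine ⟨b, hb1, ?_, hb3⟩
        have h5 : mulF (H75.ext0 C f₂) b = 0 := by
          rw [← hb2, ← mulF_assoc, ← ext0_mulF, h21, hz, mulF_zero_left]
        rw [hd, h5, hb2, add_zero]
  have h0 : H75.ext0 C (fun t : C => E t) = E := ext0_res C hE
  have := key _ hEi (by rw [h0]; exact hne)
  rwa [h0] at this

theorem bd_of (hC : C.Normal) {b : A → F} (hb : Bx C b) : Bd C b := ⟨hC, hb.supp, hb.blk⟩

/-- the restriction of `e b` to the stabiliser of `b` -/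
theorem rs_cor {b e : A → F} (h : Bd C b) (he : IsIdem e) : H75.Cor (st b) (mulF e b) := by
  have := Fintype.ofFinite (Om b)
  have hcor := (h.fam2 he).cor (omk b 1)
  rwa [om_stab, omk_one] at hcor

/-- the summand -/
def tm (ℓ : ℕ) (e b : A → F) : ℤ := YY ℓ (⊤ : Subgroup (st b)) (fun t : st b => mulF e b t)

theorem tm_zero {ℓ : ℕ} (hF : GoodF ℓ F) {e b : A → F} (h : mulF e b = 0) : tm ℓ e b = 0 := by
  unfold tm
  rw [h]
  have h0 := H9.YY_add hF H94.nch H20.nls H20.brm H20.eig H20.ibf (⊤ : Subgroup (st b))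
    (H46.isIdem_zero (F := F)) H46.isIdem_zero (H46.mulF_zero 0)
  rw [add_zero] at h0
  have h1 : YY ℓ (⊤ : Subgroup (st b)) (0 : st b → F) = 0 := by linarith
  exact h1

theorem tm_add {ℓ : ℕ} (hF : GoodF ℓ F) {e₁ e₂ b : A → F} (h : Bd C b) (h1 : IsIdem e₁)
    (h2 : IsIdem e₂) (h12 : mulF e₁ e₂ = 0) : tm ℓ (e₁ + e₂) b = tm ℓ e₁ b + tm ℓ e₂ b := by
  unfold tm
  have k1 := rs_cor h h1
  have k2 := rs_cor h h2
  have h3 : (fun t : st b => mulF (e₁ + e₂) b t) =
      (fun t : st b => mulF e₁ b t) + fun t : st b => mulF e₂ b t := by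
    funext t
    have : mulF (e₁ + e₂) b = mulF e₁ b + mulF e₂ b := by
      apply ma_injective
      rw [ma_mul, ma_add, ma_add, ma_mul, ma_mul, add_mul]
    rw [this]
    rfl
  have h4 : mulF (fun t : st b => mulF e₁ b t) (fun t : st b => mulF e₂ b t) = 0 := by
    rw [← mulF_res (st b) _ k1.supp]
    have h5 : mulF (mulF e₁ b) (mulF e₂ b) = 0 := by
      rw [mulF_comm_cl h1.1 b, mulF_assoc, ← mulF_assoc e₁ e₂, h12, mulF_zero_left,
        mulF_zero_right]
    rw [h5]
    rfl
  rw [h3, H9.YY_add hF H94.nch H20.nls H20.brm H20.eig H20.ibf ⊤ k1.isIdem k2.isIdem h4]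

theorem top_sub (K : Subgroup A) : (⊤ : Subgroup A).subgroupOf K = ⊤ := by
  ext x
  simp

/-- the summands of conjugate blocks are equal -/
theorem tm_conj {ℓ : ℕ} {e b : A → F} (he : IsIdem e) (g : A) :
    tm ℓ e (cj g b) = tm ℓ e b := by
  have h1 := conj_sum (b := b) (ℓ := ℓ) he (R := ⊤) inferInstance g
  have h2 := conj_sum (b := cj g b) (ℓ := ℓ) he (R := ⊤) inferInstance 1
  rw [cj_one] at h2
  rw [← h2, top_sub, top_sub] at h1
  exact h1.symm

theorem tm_blk {ℓ : ℕ} [Fact ℓ.Prime] (hF : GoodF ℓ F) {e b : A → F} (h : Bd C b) (he : IsBlk e)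
    (hne : mulF e b ≠ 0) : YY ℓ (⊤ : Subgroup A) e = ((st b).index : ℤ) * tm ℓ e b := by
  have h1 := h.yy H94.nch H74.orb H20.nls H20.ibf H20.ibj H20.ibn H20.eig hF he hne
    (R := ⊤) inferInstance
  rw [top_sub] at h1
  exact h1

end main

theorem frs : FrsStmt := by
  intro ℓ _ F _ hF A _ _ C hC E hE hEs
  classical
  have hfin : {b : A → F | Bx C b ∧ mulF E b = b}.Finite :=
    (bx_finite C).subset fun b hb => hb.1
  have hst : ∀ b : A → F, stabF b = st b := by
    intro b
    ext g
    rw [mem_st, cj_eq_iff]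
    rfl
  have hEi : IsIdem (fun t : C => E t) := by
    refine ⟨fun x y => hE.1 x y, ?_⟩
    rw [← mulF_res C E hEs, hE.2]
  -- the sum
  have key : ∀ e : A → F, IsIdem e → mulF E e = e →
      YY ℓ (⊤ : Subgroup A) e = ∑ b ∈ hfin.toFinset, tm ℓ e b := by
    refine H46.idem_induction _ ?_ ?_ ?_
    · intro _
      have h0 := H9.YY_add hF H94.nch H20.nls H20.brm H20.eig H20.ibf (⊤ : Subgroup A)
        (H46.isIdem_zero (F := F)) H46.isIdem_zero (H46.mulF_zero 0)
      rw [add_zero] at h0
      have h1 : YY ℓ (⊤ : Subgroup A) (0 : A → F) = 0 := by linarith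
      rw [h1]
      symm
      refine Finset.sum_eq_zero fun b _ => tm_zero hF (mulF_zero_left b)
    · intro e he hEe
      have hne : mulF e E ≠ 0 := by
        rw [← H46.mulF_comm hE.1, hEe]
        exact he.2.1
      obtain ⟨b, hb1, hb2, hb3⟩ := exists_blk hEs hEi hne
      have hbd : Bd C b := bd_of hC hb1
      have := Fintype.ofFinite (Om b)
      rw [tm_blk hF hbd he hb3, index_st]
      -- the conjugates of `b`
      have hsub : (Finset.univ.image fun f : Om b => f.1) ⊆ hfin.toFinset := by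
        intro b' hb'
        obtain ⟨f, -, rfl⟩ := Finset.mem_image.1 hb'
        obtain ⟨g, rfl⟩ := omk_surj f
        rw [Set.Finite.mem_toFinset]
        refine ⟨hb1.cj ?_, ?_⟩
        · rw [Subgroup.normalizer_eq_top_iff.2 hC]
          trivial
        · change mulF E (cj g b) = cj g b
          conv_lhs => rw [← cj_isCl g hE.1]
          rw [← cj_mulF, hb2]
      rw [← Finset.sum_subset hsub]
      · have h0 : ∑ x ∈ Finset.univ.image (fun f : Om b => f.1), tm ℓ e x =
            ∑ f : Om b, tm ℓ e f.1 :=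
          Finset.sum_image (s := Finset.univ) (g := fun f : Om b => f.1)
            (f := fun x => tm ℓ e x) (fun f _ f' _ h => Subtype.ext h)
        rw [h0]
        have h1 : ∀ f ∈ (Finset.univ : Finset (Om b)), tm ℓ e f.1 = tm ℓ e b := by
          intro f _
          obtain ⟨g, rfl⟩ := omk_surj f
          exact tm_conj he.1 g
        rw [Finset.sum_congr rfl h1, Finset.sum_const, Finset.card_univ, nsmul_eq_mul]
      · intro b' hb' hn
        apply tm_zero hF
        rw [Set.Finite.mem_toFinset] at hb'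
        by_contra hne'
        apply hn
        rw [Finset.mem_image]
        by_contra hall
        apply hne'
        have h2 : ∀ f : Om b, mulF (mulF e f.1) b' = 0 := by
          intro f
          obtain ⟨g, rfl⟩ := omk_surj f
          have h3 : Bx C (cj g b) := hb1.cj (by
            rw [Subgroup.normalizer_eq_top_iff.2 hC]
            trivial)
          rcases h3.dich hb'.1 with h4 | h4
          · exact absurd ⟨omk b g, Finset.mem_univ _, h4⟩ hall
          · change mulF (mulF e (cj g b)) b' = 0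
            rw [mulF_assoc, h4, mulF_zero_right]
        rw [← hbd.sum_eq he hb3]
        apply ma_injective
        rw [ma_mul, ma_finsum, Finset.sum_mul, ma_zero]
        refine Finset.sum_eq_zero fun f _ => ?_
        rw [← ma_mul, h2, ma_zero]
    · intro e₁ e₂ h1 h2 h12 p1 p2 h
      have h21 : mulF e₂ e₁ = 0 := by rw [← H46.mulF_comm h1.1, h12]
      have hE1 : mulF E e₁ = e₁ := by
        have h3 : mulF (mulF E (e₁ + e₂)) e₁ = mulF (e₁ + e₂) e₁ := by rw [h]
        have h4 : mulF (e₁ + e₂) e₁ = e₁ := by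
          apply ma_injective
          rw [ma_mul, ma_add, add_mul, ← ma_mul, ← ma_mul, h1.2, h21, ma_zero, add_zero]
        rwa [mulF_assoc, h4] at h3
      have hE2 : mulF E e₂ = e₂ := by
        have h3 : mulF (mulF E (e₁ + e₂)) e₂ = mulF (e₁ + e₂) e₂ := by rw [h]
        have h4 : mulF (e₁ + e₂) e₂ = e₂ := by
          apply ma_injective
          rw [ma_mul, ma_add, add_mul, ← ma_mul, ← ma_mul, h2.2, h12, ma_zero, zero_add]
        rwa [mulF_assoc, h4] at h3
      rw [H9.YY_add hF H94.nch H20.nls H20.brm H20.eig H20.ibf ⊤ h1 h2 h12, p1 hE1, p2 hE2,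
        ← Finset.sum_add_distrib]
      refine Finset.sum_congr rfl fun b hb => ?_
      rw [Set.Finite.mem_toFinset] at hb
      rw [tm_add hF (bd_of hC hb.1) h1 h2 h12]
  rw [key E hE hE.2]
  have h1 : ∑ᶠ (b : A → F) (_ : Bx C b ∧ mulF E b = b),
      YY ℓ (⊤ : Subgroup (stabF b)) (fun t : stabF b => b t) =
      ∑ b ∈ hfin.toFinset, YY ℓ (⊤ : Subgroup (stabF b)) (fun t : stabF b => b t) :=
    finsum_mem_eq_finite_toFinset_sum
      (fun b : A → F => YY ℓ (⊤ : Subgroup (stabF b)) (fun t : stabF b => b t)) hfin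
  rw [h1]
  refine Finset.sum_congr rfl fun b hb => ?_
  rw [Set.Finite.mem_toFinset] at hb
  unfold tm
  rw [hb.2]
  have h2 : ∀ T T' : Subgroup A, T = T' → YY ℓ (⊤ : Subgroup T) (fun t : T => b t) =
      YY ℓ (⊤ : Subgroup T') (fun t : T' => b t) := by
    intro T T' h
    subst h
    rfl
  exact h2 _ _ (hst b).symm

end Pool.Agent.PP.T2.H83
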